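import Pool.Agent.H234.Sep.Polar
import Pool.Agent.H221.TW.All
import Pool.Agent.H786.TW.Ch3
import Pool.Agent.H292.TW.Planar

set_option autoImplicit false

/-!
# MP_5e7226_co: twelve planes for every convex body of space and every interior point

Let `s(K, o)` be the least number of planes such that every face of the convex body `K` of `ℝ³` is
strictly separated from the interior point `o` by one of them (conjectured: at most `8`).  We prove
`s(K, o) ≤ 12` for ALL pairs `(K, o)`.

Proof.  `s(K, o)` is the covering number of the polar body of `K` with respect to `o`, and every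
convex body of `ℝ³` is covered by twelve translates of its interior (this run, project TWELVE, page
MP_eba1ef_gt).
-/

open Set
open scoped InnerProductSpace

namespace Pool.Agent.Results.MP_5e7226_co.TwelvePlanes

/-- There are at most `N` planes of `ℝ³` such that every face of `K` is strictly separated from `o`
by one of them (the plane `h` is `{x | ⟪h.1, x⟫ = h.2}`, and the face of `K` in the direction
`u` is the set of all `x ∈ K` at which `⟪u, x⟫` is maximal). -/
def SeparatedBy (K : Set (EuclideanSpace ℝ (Fin 3))) (o : EuclideanSpace ℝ (Fin 3))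
    (N : ℕ) : Prop :=
  ∃ H : Finset (EuclideanSpace ℝ (Fin 3) × ℝ), H.card ≤ N ∧ (∀ h ∈ H, h.1 ≠ 0) ∧
    ∀ u x₀ : EuclideanSpace ℝ (Fin 3), u ≠ 0 → x₀ ∈ K → (∀ y ∈ K, ⟪u, y⟫_ℝ ≤ ⟪u, x₀⟫_ℝ) →
      ∃ h ∈ H, ⟪h.1, o⟫_ℝ < h.2 ∧ ∀ x ∈ K, ⟪u, x⟫_ℝ = ⟪u, x₀⟫_ℝ → h.2 < ⟪h.1, x⟫_ℝ

/-- **Main theorem.** Every convex body `K` of `ℝ³` (compact, with the interior point `o`) has
twelve planes such that each face of `K` is strictly separated from `o` by one of them. -/
theorem result (K : Set (EuclideanSpace ℝ (Fin 3))) (hKc : IsCompact K)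
    (o : EuclideanSpace ℝ (Fin 3)) (ho : o ∈ interior K) : SeparatedBy K o 12 := by
  have hPc := Pool.Agent.H234.Sep.pol_convex K o
  have hPk := Pool.Agent.H234.Sep.pol_compact ho
  have hPi : (interior (Pool.Agent.H234.Sep.Pol K o)).Nonempty :=
    ⟨0, Pool.Agent.H234.Sep.pol_int hKc⟩
  obtain ⟨T, hcard, hT⟩ := Pool.Agent.H221.TW.final Pool.Agent.H786.TW.ch3
    Pool.Agent.H292.TW.planarG (Pool.Agent.H234.Sep.Pol K o) hPc hPk hPi
  have hcard' : (T.card : ℝ) ≤ 12 := by exact_mod_cast hcard
  obtain ⟨H, hH, h1, h2⟩ := Pool.Agent.H234.Sep.sep_of_cover ho T hT 12 hcard'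
  exact ⟨H, by exact_mod_cast hH, h1, h2⟩

end Pool.Agent.Results.MP_5e7226_co.TwelvePlanes
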